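import Mathlib
import Pool.Agent.Work.MP_9bdca2_co.Welch
import Pool.Agent.Work.MP_9bdca2_co.Even

/-!
# Eventual failure of the corner-dot and Rickard constructions of Costas arrays

All five derived methods `G₁, G₀, W₀, RW₀, RG₁` produce Costas arrays of only finitely many orders.
-/

set_option autoImplicit false

namespace Pool.Agent.Results.MP_9bdca2_co.EventualFailure

open Pool.Agent.Work.MP_9bdca2_co

/-- `f` restricted to `[1, n]` is a Costas permutation of order `n`: it is a bijection of `[1, n]`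
onto itself and the vectors `(i - j, f i - f j)`, `1 ≤ j < i ≤ n`, are pairwise distinct. -/
def IsCostas (n : ℕ) (f : ℕ → ℕ) : Prop :=
  Set.BijOn f (Set.Icc 1 n) (Set.Icc 1 n) ∧
  ∀ i j i' j' : ℕ, 1 ≤ j → j < i → i ≤ n → 1 ≤ j' → j' < i' → i' ≤ n →
    (i : ℤ) - j = i' - j' → (f i : ℤ) - f j = f i' - f j' → i = i' ∧ j = j'

/-- `α` is a primitive element of the finite field `F`: it generates the multiplicative group. -/
def Primitive {F : Type} [Field F] (α : F) : Prop :=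
  α ≠ 0 ∧ ∀ x : F, x ≠ 0 → ∃ k : ℕ, α ^ k = x

/-- The Welch permutation `W₁(p, α, c)` on `[1, p - 1]`. -/
def IsWelch (p : ℕ) (α : ZMod p) (c : ℕ) (g : ℕ → ℕ) : Prop :=
  ∀ i, 1 ≤ i → i ≤ p - 1 → g i = (α ^ (i - 1 + c)).val

/-- The Golomb permutation `G₂(q, α, β)` on `[1, q - 2]`, where `q` is the order of `F`. -/
def IsGolomb {F : Type} [Field F] [Fintype F] (α β : F) (g : ℕ → ℕ) : Prop :=
  ∀ i, 1 ≤ i → i ≤ Fintype.card F - 2 →
    1 ≤ g i ∧ g i ≤ Fintype.card F - 2 ∧ α ^ i + β ^ g i = 1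

/-- Data for the Welch based methods: `p` prime, `α` primitive, `c ∈ {0, …, p - 2}`. -/
def WelchData (p : ℕ) (α : ZMod p) (c : ℕ) (g : ℕ → ℕ) : Prop :=
  ∃ _ : Fact p.Prime, Primitive α ∧ c ≤ p - 2 ∧ IsWelch p α c g

/-- Data for the Golomb based methods: `α`, `β` primitive elements of `F`. -/
def GolombData {F : Type} [Field F] [Fintype F] (α β : F) (g : ℕ → ℕ) : Prop :=
  Primitive α ∧ Primitive β ∧ IsGolomb α β g

/-- The five derived methods. -/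
inductive Method : Type
  | G1 | G0 | W0 | RW0 | RG1

/-- `Candidate m n f`: some admissible choice of the parameters of the method `m` gives the
function `f` of order `n`. -/
def Candidate : Method → ℕ → (ℕ → ℕ) → Prop
  | .G1, n, f => ∃ (F : Type) (_ : Field F) (_ : Fintype F) (α β : F) (g : ℕ → ℕ),
      GolombData α β g ∧ n = Fintype.card F - 1 ∧ f 1 = 1 ∧
      ∀ i, 2 ≤ i → i ≤ Fintype.card F - 1 → f i = g (i - 1) + 1
  | .G0, n, f => ∃ (F : Type) (_ : Field F) (_ : Fintype F) (α β : F) (g : ℕ → ℕ),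
      GolombData α β g ∧ n = Fintype.card F ∧ f 1 = 1 ∧ f (Fintype.card F) = Fintype.card F ∧
      ∀ i, 2 ≤ i → i ≤ Fintype.card F - 1 → f i = g (i - 1) + 1
  | .W0, n, f => ∃ (p : ℕ) (α : ZMod p) (c : ℕ) (g : ℕ → ℕ),
      WelchData p α c g ∧ n = p ∧ f 1 = 1 ∧ ∀ i, 2 ≤ i → i ≤ p → f i = g (i - 1) + 1
  | .RW0, n, f => ∃ (p : ℕ) (α : ZMod p) (c : ℕ) (g : ℕ → ℕ) (t : ℕ),
      WelchData p α c g ∧ n = p ∧ 2 ≤ t ∧ t ≤ p - 1 ∧
      (∀ i, 1 ≤ i → i ≤ p - 1 → f i = (g i + t - 1) % p + 1) ∧ f p = t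
  | .RG1, n, f => ∃ (F : Type) (_ : Field F) (_ : Fintype F) (α β : F) (g : ℕ → ℕ) (t₁ t₂ : ℕ),
      GolombData α β g ∧ n = Fintype.card F - 1 ∧
      2 ≤ t₁ ∧ t₁ ≤ Fintype.card F - 2 ∧ 2 ≤ t₂ ∧ t₂ ≤ Fintype.card F - 2 ∧ f t₁ = t₂ ∧
      ∀ i, 1 ≤ i → i ≤ Fintype.card F - 1 → i ≠ t₁ →
        f i = (g ((((i : ℤ) - t₁ - 1) % ((Fintype.card F : ℤ) - 1)).toNat + 1) + t₂ - 1) %
          (Fintype.card F - 1) + 1

/-- The method `m` produces a Costas array of order `n`. -/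
def Produces (m : Method) (n : ℕ) : Prop := ∃ f : ℕ → ℕ, Candidate m n f ∧ IsCostas n f

/-! ### Proof -/

theorem violation {n : ℕ} {f : ℕ → ℕ} (h : IsCostas n f) {a b c d : ℕ}
    (ha : 1 ≤ a ∧ a ≤ n) (hb : 1 ≤ b ∧ b ≤ n) (hc : 1 ≤ c ∧ c ≤ n) (hd : 1 ≤ d ∧ d ≤ n)
    (h1 : d + c = a + b) (h2 : f d + f c = f a + f b) (hda : a ≠ d) (hdb : b ≠ d) : False := by
  rcases lt_or_gt_of_ne hda with h3 | h3
  · have := h.2 d a b c ha.1 h3 hd.2 hc.1 (by omega) hb.2 (by omega) (by omega)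
    exact hdb this.1.symm
  · have := h.2 a d c b hd.1 h3 ha.2 hb.1 (by omega) hc.2 (by omega) (by omega)
    exact hdb this.2.symm

theorem golomb_val {F : Type} [Field F] [Fintype F] [NeZero (Fintype.card F - 1)] {α β : F}
    {g : ℕ → ℕ} (h : GolombData α β g) {X : F} (hX0 : X ≠ 0) (hX1 : X ≠ 1) :
    1 ≤ (dlog α X).val ∧ (dlog α X).val ≤ Fintype.card F - 2 ∧
      (dlog β (1 - X)).val = g (dlog α X).val := by
  obtain ⟨hα, hβ, hg⟩ := h
  have h0 : (dlog α X).val ≠ 0 := by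
    intro h0
    have := pow_dlog hα hX0
    rw [h0, pow_zero] at this
    exact hX1 this.symm
  have h1 := ZMod.val_lt (dlog α X)
  have h2 : (dlog α X).val ≤ Fintype.card F - 2 := by omega
  obtain ⟨g1, g2, g3⟩ := hg (dlog α X).val (by omega) h2
  refine ⟨by omega, h2, ?_⟩
  rw [pow_dlog hα hX0] at g3
  have h3 : 1 - X = β ^ g (dlog α X).val := by rw [← g3]; ring
  rw [h3, dlog_pow hβ, ZMod.val_cast_of_lt (by omega)]

theorem golomb_contra : ∃ Q : ℕ, 4 ≤ Q ∧ ∀ (F : Type) [Field F] [Fintype F]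
    [NeZero (Fintype.card F - 1)], Q ≤ Fintype.card F → ∀ α β : F, Primitive α → Primitive β →
    ∀ (T T' : ZMod (Fintype.card F - 1)) (n : ℕ) (f : ℕ → ℕ), Fintype.card F - 1 ≤ n →
    IsCostas n f → f (T.val + 1) = T'.val + 1 →
    (∀ X : F, X ≠ 0 → X ≠ 1 → f ((dlog α X + T).val + 1) = (dlog β (1 - X) + T').val + 1) →
    False := by
  obtain ⟨Q, hQ4, hQ⟩ := golomb_all
  refine ⟨Q, hQ4, ?_⟩
  intro F _ _ _ hcard α β hα hβ T T' n f hn hf hD hdots
  obtain ⟨X, Z, hX0, hX1, hZ0, hZ1, hXZ, e1, e2⟩ := hQ F hcard α β hα hβ T T'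
  have hXZ0 : X * Z ≠ 0 := mul_ne_zero hX0 hZ0
  have h1X : 1 - X ≠ 0 := sub_ne_zero.2 (Ne.symm hX1)
  have h1Z : 1 - Z ≠ 0 := sub_ne_zero.2 (Ne.symm hZ1)
  have hXZ1 : X * Z ≠ 1 := by
    intro h
    rw [h, sub_self] at hXZ
    exact mul_ne_zero h1X h1Z hXZ
  have dA := hdots X hX0 hX1
  have dB := hdots Z hZ0 hZ1
  have dC := hdots (X * Z) hXZ0 hXZ1
  rw [← hXZ, dlog_mul hα hX0 hZ0, dlog_mul hβ h1X h1Z] at dC
  have bound : ∀ x : ZMod (Fintype.card F - 1), 1 ≤ x.val + 1 ∧ x.val + 1 ≤ n := by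
    intro x
    have := ZMod.val_lt x
    omega
  have hne : ∀ {Y : F}, Y ≠ 0 → Y ≠ 1 → (dlog α Y + T).val + 1 ≠ T.val + 1 := by
    intro Y hY0 hY1 h
    have h3 : dlog α Y + T = T := ZMod.val_injective _ (by omega)
    have h4 : dlog α Y = 0 := by
      have := congrArg (fun z => z - T) h3
      simpa using this
    have h5 := pow_dlog hα hY0
    rw [h4, ZMod.val_zero, pow_zero] at h5
    exact hY1 h5.symm
  refine violation hf (a := (dlog α X + T).val + 1) (b := (dlog α Z + T).val + 1)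
    (c := (dlog α X + dlog α Z + T).val + 1) (d := T.val + 1)
    (bound _) (bound _) (bound _) (bound _) (by omega) ?_ (hne hX0 hX1) (hne hZ0 hZ1)
  rw [hD, dA, dB, dC]
  omega

/-- The dots of a `G₁` or `G₀` array. -/
theorem corner_dots {F : Type} [Field F] [Fintype F] [NeZero (Fintype.card F - 1)] {α β : F}
    {g f : ℕ → ℕ} (h : GolombData α β g) (hf1 : f 1 = 1)
    (hf : ∀ i, 2 ≤ i → i ≤ Fintype.card F - 1 → f i = g (i - 1) + 1) :
    f ((0 : ZMod (Fintype.card F - 1)).val + 1) = (0 : ZMod (Fintype.card F - 1)).val + 1 ∧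
    (∀ X : F, X ≠ 0 → X ≠ 1 →
      f ((dlog α X + 0).val + 1) = (dlog β (1 - X) + 0).val + 1) := by
  refine ⟨by rw [ZMod.val_zero]; exact hf1, fun X hX0 hX1 => ?_⟩
  obtain ⟨h1, h2, h3⟩ := golomb_val h hX0 hX1
  rw [add_zero, add_zero, hf _ (by omega) (by omega), Nat.add_sub_cancel, h3]

/-- The dots of an `RG₁` array. -/
theorem rickard_dots {F : Type} [Field F] [Fintype F] [NeZero (Fintype.card F - 1)] {α β : F}
    {g f : ℕ → ℕ} (h : GolombData α β g) {t₁ t₂ : ℕ} (h1 : 2 ≤ t₁)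
    (h2 : t₁ ≤ Fintype.card F - 2) (h3 : 2 ≤ t₂) (h4 : t₂ ≤ Fintype.card F - 2)
    (hf1 : f t₁ = t₂)
    (hf : ∀ i, 1 ≤ i → i ≤ Fintype.card F - 1 → i ≠ t₁ →
        f i = (g ((((i : ℤ) - t₁ - 1) % ((Fintype.card F : ℤ) - 1)).toNat + 1) + t₂ - 1) %
          (Fintype.card F - 1) + 1) :
    f ((((t₁ - 1 : ℕ) : ZMod (Fintype.card F - 1))).val + 1) =
      (((t₂ - 1 : ℕ) : ZMod (Fintype.card F - 1))).val + 1 ∧
    (∀ X : F, X ≠ 0 → X ≠ 1 →
      f ((dlog α X + ((t₁ - 1 : ℕ) : ZMod (Fintype.card F - 1))).val + 1) =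
        (dlog β (1 - X) + ((t₂ - 1 : ℕ) : ZMod (Fintype.card F - 1))).val + 1) := by
  have v1 : (((t₁ - 1 : ℕ) : ZMod (Fintype.card F - 1))).val = t₁ - 1 :=
    ZMod.val_cast_of_lt (by omega)
  have v2 : (((t₂ - 1 : ℕ) : ZMod (Fintype.card F - 1))).val = t₂ - 1 :=
    ZMod.val_cast_of_lt (by omega)
  refine ⟨?_, fun X hX0 hX1 => ?_⟩
  · rw [v1, v2, Nat.sub_add_cancel (by omega), Nat.sub_add_cancel (by omega)]
    exact hf1
  · obtain ⟨k1, k2, k3⟩ := golomb_val h hX0 hX1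
    have e1 : (dlog α X + ((t₁ - 1 : ℕ) : ZMod (Fintype.card F - 1))).val =
        ((dlog α X).val + (t₁ - 1)) % (Fintype.card F - 1) := by
      rw [ZMod.val_add, v1]
    have e2 : (dlog β (1 - X) + ((t₂ - 1 : ℕ) : ZMod (Fintype.card F - 1))).val =
        ((dlog β (1 - X)).val + (t₂ - 1)) % (Fintype.card F - 1) := by
      rw [ZMod.val_add, v2]
    have hlt := ZMod.val_lt (dlog α X + ((t₁ - 1 : ℕ) : ZMod (Fintype.card F - 1)))
    set s := (dlog α X + ((t₁ - 1 : ℕ) : ZMod (Fintype.card F - 1))).val with hs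
    set a := (dlog α X).val with ha
    have hs2 : s = a + (t₁ - 1) ∨ s + (Fintype.card F - 1) = a + (t₁ - 1) := by
      have e3 := Nat.div_add_mod (a + (t₁ - 1)) (Fintype.card F - 1)
      have d1 : (a + (t₁ - 1)) / (Fintype.card F - 1) < 2 := by
        rw [Nat.div_lt_iff_lt_mul (by omega)]; omega
      rw [← e1] at e3
      have c1 : (a + (t₁ - 1)) / (Fintype.card F - 1) = 0 ∨
          (a + (t₁ - 1)) / (Fintype.card F - 1) = 1 := by
        generalize (a + (t₁ - 1)) / (Fintype.card F - 1) = k at d1 ⊢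
        omega
      rcases c1 with c1 | c1 <;> rw [c1] at e3 <;> omega
    have hidx : ((((s + 1 : ℕ) : ℤ) - t₁ - 1) % ((Fintype.card F : ℤ) - 1)).toNat + 1 = a := by
      have hr : (((s + 1 : ℕ) : ℤ) - t₁ - 1) % ((Fintype.card F : ℤ) - 1) = (a : ℤ) - 1 := by
        rcases hs2 with h5 | h5
        · rw [show (((s + 1 : ℕ) : ℤ) - t₁ - 1) = (a : ℤ) - 1 by omega]
          exact Int.emod_eq_of_lt (by omega) (by omega)
        · rw [show (((s + 1 : ℕ) : ℤ) - t₁ - 1) = (a : ℤ) - 1 - ((Fintype.card F : ℤ) - 1) by omega,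
            Int.sub_emod_right]
          exact Int.emod_eq_of_lt (by omega) (by omega)
      rw [hr]
      omega
    rw [hf (s + 1) (by omega) (by omega) (by omega), hidx, e2, k3,
      Nat.add_sub_assoc (by omega)]

theorem pow_one_based {p : ℕ} [Fact p.Prime] [NeZero (Fintype.card (ZMod p) - 1)] {α : ZMod p}
    (hα : Primitive α) {x : ZMod p} (hx : x ≠ 0) : α ^ ((dlog α x + -1).val + 1) = x := by
  have h1 := pow_dlog (α := α) hα hx
  conv_rhs => rw [← h1]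
  rw [PrimElt.pow_eq_pow_iff (α := α) hα]
  push_cast
  rw [ZMod.natCast_zmod_val, ZMod.natCast_zmod_val]
  ring

theorem welch_bad' : ∃ Q : ℕ, 4 ≤ Q ∧ ∀ (p : ℕ) [Fact p.Prime], Q ≤ p →
    ∀ α A : ZMod p, Primitive α → A ≠ 0 → ∀ t : ZMod p, ∃ j₁ j₂ : ℕ, 1 ≤ j₁ ∧ 1 ≤ j₂ ∧
      j₁ + j₂ ≤ p - 1 ∧
      (A * α ^ j₁ + t).val + (A * α ^ j₂ + t).val = (A * α ^ (j₁ + j₂) + t).val + t.val := by
  obtain ⟨Q, hQ4, hQ⟩ := welch_bad
  refine ⟨Q, hQ4, ?_⟩
  intro p _ hp α A hα hA t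
  have hcp : Fintype.card (ZMod p) = p := ZMod.card p
  have hne : NeZero (Fintype.card (ZMod p) - 1) := ⟨by rw [hcp]; omega⟩
  obtain ⟨u, hu0, hu1, e1, e2⟩ := hQ p hp α A hα hA t
  have hu2 : (1 + u) / u ≠ 0 := div_ne_zero hu1 hu0
  have f1 := pow_one_based hα hu1
  have f2 := pow_one_based hα hu2
  have f3 := pow_one_based hα (mul_ne_zero hu1 hu2)
  rw [dlog_mul (α := α) hα hu1 hu2] at f3
  have hlt := ZMod.val_lt (dlog α (1 + u) + dlog α ((1 + u) / u) + -1)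
  refine ⟨(dlog α (1 + u) + -1).val + 1, (dlog α ((1 + u) / u) + -1).val + 1, by omega, by omega,
    by omega, ?_⟩
  rw [e2, f1, f2, f3]
  have g1 : (1 + u) / u = 1 + u⁻¹ := by field_simp; ring
  have g2 : A * ((1 + u) * ((1 + u) / u)) = A * (1 + u) + A * (1 + u⁻¹) := by
    field_simp
    ring
  rw [g2, g1]
  exact e1

/-- **Answer to the question.** Each of the five methods `G₁, G₀, W₀, RW₀, RG₁` produces no Costas
array of any sufficiently large order. -/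
theorem result : ∀ m : Method, ∃ N : ℕ, ∀ n : ℕ, N < n → ¬ Produces m n := by
  obtain ⟨Qg, hQg4, hQg⟩ := golomb_contra
  obtain ⟨Qw, hQw4, hQw⟩ := welch_bad'
  intro m
  refine ⟨Qg + Qw, fun n hn => ?_⟩
  rintro ⟨f, hcand, hcostas⟩
  cases m with
  | G1 =>
    obtain ⟨F, _, _, α, β, g, hd, hcard, hf1, hf⟩ := hcand
    have hne : NeZero (Fintype.card F - 1) := ⟨by omega⟩
    obtain ⟨k1, k2⟩ := corner_dots hd hf1 hf
    exact hQg F (by omega) α β hd.1 hd.2.1 0 0 n f (by omega) hcostas k1 k2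
  | G0 =>
    obtain ⟨F, _, _, α, β, g, hd, hcard, hf1, _, hf⟩ := hcand
    have hne : NeZero (Fintype.card F - 1) := ⟨by omega⟩
    obtain ⟨k1, k2⟩ := corner_dots hd hf1 hf
    exact hQg F (by omega) α β hd.1 hd.2.1 0 0 n f (by omega) hcostas k1 k2
  | RG1 =>
    obtain ⟨F, _, _, α, β, g, t₁, t₂, hd, hcard, h1, h2, h3, h4, hf1, hf⟩ := hcand
    have hne : NeZero (Fintype.card F - 1) := ⟨by omega⟩
    obtain ⟨k1, k2⟩ := rickard_dots hd h1 h2 h3 h4 hf1 hf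
    exact hQg F (by omega) α β hd.1 hd.2.1 _ _ n f (by omega) hcostas k1 k2
  | W0 =>
    obtain ⟨p, α, c, g, ⟨hp, hα, hc, hg⟩, hnp, hf1, hf⟩ := hcand
    subst hnp
    have hA : α ^ c * α⁻¹ ≠ 0 := mul_ne_zero (pow_ne_zero _ hα.1) (inv_ne_zero hα.1)
    obtain ⟨j₁, j₂, hj1, hj2, hj, e⟩ := hQw n (by omega) α (α ^ c * α⁻¹) hα hA 0
    have dot : ∀ j, 1 ≤ j → j ≤ n - 1 → f (j + 1) = (α ^ c * α⁻¹ * α ^ j + 0).val + 1 := by
      intro j hj hj'
      rw [hf (j + 1) (by omega) (by omega), Nat.add_sub_cancel, hg j hj hj', add_zero]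
      congr 2
      obtain ⟨i, rfl⟩ : ∃ i, j = i + 1 := ⟨j - 1, by omega⟩
      rw [Nat.add_sub_cancel, pow_add, pow_succ]
      have h := inv_mul_cancel₀ hα.1
      linear_combination (-(α ^ i * α ^ c)) * h
    have hn2 : 2 ≤ n := by omega
    refine violation hcostas (a := j₁ + 1) (b := j₂ + 1) (c := j₁ + j₂ + 1) (d := 1)
      ⟨by omega, by omega⟩ ⟨by omega, by omega⟩ ⟨by omega, by omega⟩ ⟨le_refl _, by omega⟩
      (by omega) ?_ (by omega) (by omega)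
    rw [hf1, dot j₁ hj1 (by omega), dot j₂ hj2 (by omega), dot (j₁ + j₂) (by omega) hj]
    rw [ZMod.val_zero] at e
    omega
  | RW0 =>
    obtain ⟨p, α, c, g, t, ⟨hp, hα, hc, hg⟩, hnp, ht1, ht2, hf, hft⟩ := hcand
    subst hnp
    have hα' : Primitive α⁻¹ := by
      refine ⟨inv_ne_zero hα.1, fun x hx => ?_⟩
      obtain ⟨k, hk⟩ := hα.2 x⁻¹ (inv_ne_zero hx)
      exact ⟨k, by rw [inv_pow, hk, inv_inv]⟩
    have hA : α ^ c ≠ 0 := pow_ne_zero _ hα.1
    have hT : (((t - 1 : ℕ) : ZMod n)).val = t - 1 := ZMod.val_cast_of_lt (by omega)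
    obtain ⟨j₁, j₂, hj1, hj2, hj, e⟩ := hQw n (by omega) α⁻¹ (α ^ c) hα' hA ((t - 1 : ℕ) : ZMod n)
    have dot : ∀ j, 1 ≤ j → j ≤ n - 1 →
        f (n - j) = (α ^ c * α⁻¹ ^ j + ((t - 1 : ℕ) : ZMod n)).val + 1 := by
      intro j hj hj'
      have h1 : α ^ (n - j - 1 + c) = α ^ c * α⁻¹ ^ j := by
        have h2 : α ^ (n - j - 1 + c) * α ^ j = α ^ c := by
          rw [← pow_add, show n - j - 1 + c + j = (n - 1) + c by omega, pow_add,
            ZMod.pow_card_sub_one_eq_one hα.1, one_mul]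
        rw [inv_pow, ← h2, mul_inv_cancel_right₀ (pow_ne_zero _ hα.1)]
      have hne : NeZero n := ⟨by omega⟩
      rw [hf (n - j) (by omega) (by omega), hg (n - j) (by omega) (by omega), h1, ZMod.val_add, hT,
        Nat.add_sub_assoc (by omega)]
    refine violation hcostas (a := n - j₁) (b := n - j₂) (c := n - (j₁ + j₂)) (d := n)
      ⟨by omega, by omega⟩ ⟨by omega, by omega⟩ ⟨by omega, by omega⟩ ⟨by omega, le_refl _⟩
      (by omega) ?_ (by omega) (by omega)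
    rw [hft, dot j₁ hj1 (by omega), dot j₂ hj2 (by omega), dot (j₁ + j₂) (by omega) hj]
    rw [hT] at e
    omega

end Pool.Agent.Results.MP_9bdca2_co.EventualFailure
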